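import Pool.Agent.Q27.Cox.Par

/-!
# Billey-Postnikov decompositions
-/

set_option autoImplicit false
set_option linter.unusedSectionVars false

namespace Q27.Cox

open CoxeterSystem

variable {B : Type*} {M : CoxeterMatrix B} {W : Type*} [Group W] {cs : CoxeterSystem M W}


/-! ### Minimal double coset representatives -/

section double

variable (cs)

/-- The simple reflections in `E` which are conjugated into `K` by `v`. -/
def I (E K : Set B) (v : W) : Set B := {i | i ∈ E ∧ ∃ k ∈ K, cs.simple i * v = v * cs.simple k}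

/-- Their conjugates. -/
def fI (E K : Set B) (v : W) : Set B := {k | k ∈ K ∧ ∃ i ∈ E, cs.simple i * v = v * cs.simple k}

variable {cs}
variable {E K : Set B} {v : W}

theorem mul_mem_R (h1 : v ∈ L cs E) (h2 : v ∈ R cs K) :
    ∀ z, z ∈ P cs E → z ∈ R cs (I cs E K v) → z * v ∈ R cs K := by
  intro z
  induction hn : cs.length z using Nat.strong_induction_on generalizing z with
  | _ n ih =>
    intro hzE hzR
    by_cases hz : z = 1
    · rw [hz, one_mul]
      exact h2
    obtain ⟨i, hi⟩ := cs.exists_leftDescent_of_ne_one hz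
    have hi' : cs.length (cs.simple i * z) < cs.length z := hi
    have hiE : i ∈ E := descent_mem hzE hi'
    have hz'E : cs.simple i * z ∈ P cs E := mul_mem (simple_mem_P hiE) hzE
    have hz'R := deodhar_down hzR hi'
    have h3 := ih (cs.length (cs.simple i * z)) (by omega) (cs.simple i * z) rfl hz'E hz'R
    have h4 := length_mul_L h1 hzE
    have h5 := length_mul_L h1 hz'E
    have e1 : cs.simple i * (cs.simple i * z * v) = z * v := by
      rw [mul_assoc, cs.simple_mul_simple_cancel_left]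
    rcases deodhar_up h3 (i := i) (by rw [e1]; omega) with h6 | ⟨k, hk, h6⟩
    · rwa [e1] at h6
    · exfalso
      rw [e1] at h6
      set r : W := (cs.simple i * z)⁻¹ * z with hr
      have hrv : r * v = v * cs.simple k := by
        rw [hr, mul_assoc, h6]
        group
      have hrE : r ∈ P cs E := mul_mem (inv_mem hz'E) hzE
      have h7 := length_mul_L h1 hrE
      rw [hrv] at h7
      have h8 := h2 k hk
      have h9 := cs.length_mul_simple v k
      have h10 : cs.length r = 1 := by omega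
      rw [cs.length_eq_one_iff] at h10
      obtain ⟨j, hj⟩ := h10
      have hjE : j ∈ E := mem_of_simple_mem_P (hj ▸ hrE)
      have hjI : j ∈ I cs E K v := ⟨hjE, k, hk, by rw [← hj]; exact hrv⟩
      have h11 := hzR j hjI
      have e2 : z * cs.simple j = cs.simple i * z := by
        have h12 : z = cs.simple i * z * cs.simple j := by rw [← hj, hr]; group
        calc z * cs.simple j = cs.simple i * z * cs.simple j * cs.simple j := by rw [← h12]
          _ = cs.simple i * z := by rw [mul_assoc, cs.simple_mul_simple_self, mul_one]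
      rw [e2] at h11
      omega

theorem conj_mem {x : W} (hx : x ∈ P cs (I cs E K v)) : v⁻¹ * x * v ∈ P cs (fI cs E K v) := by
  obtain ⟨ω, h1, rfl⟩ := exists_word hx
  clear hx
  induction ω with
  | nil => simp [one_mem]
  | cons i ω ih =>
    obtain ⟨hiE, k, hk, hik⟩ := h1 i (by simp)
    have h2 := ih (fun j hj => h1 j (by simp [hj]))
    have e : v⁻¹ * cs.wordProd (i :: ω) * v = cs.simple k * (v⁻¹ * cs.wordProd ω * v) := by
      have h3 : cs.simple k = v⁻¹ * (cs.simple i * v) := by rw [hik]; group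
      rw [cs.wordProd_cons, h3]
      group
    rw [e]
    exact mul_mem (simple_mem_P ⟨hk, i, hiE, hik⟩) h2

theorem I_subset : I cs E K v ⊆ E := fun _ h => h.1
theorem fI_subset : fI cs E K v ⊆ K := fun _ h => h.1

theorem length_conj (h1 : v ∈ L cs E) (h2 : v ∈ R cs K) {x : W} (hx : x ∈ P cs (I cs E K v)) :
    cs.length (v⁻¹ * x * v) = cs.length x := by
  have h3 := length_mul_L h1 (P_mono I_subset hx)
  have h4 := length_mul_R h2 (P_mono fI_subset (conj_mem hx))
  have e : v * (v⁻¹ * x * v) = x * v := by group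
  rw [e] at h4
  omega

theorem supp_conj (h1 : v ∈ L cs E) (h2 : v ∈ R cs K) {i k : B} (hi : i ∈ E) (hk : k ∈ K)
    (h : cs.simple i * v = v * cs.simple k) : i = k ∨ k ∈ supp cs v := by
  have h3 := length_mul_L h1 (simple_mem_P hi)
  have h4 := length_mul_R h2 (simple_mem_P hk)
  have h5 := supp_mul h3
  have h6 := supp_mul h4
  rw [← h, h5, supp_simple, supp_simple] at h6
  have h7 : k ∈ supp cs v ∪ {k} := Or.inr rfl
  rw [← h6] at h7
  rcases h7 with h8 | h8
  · exact Or.inl h8.symm
  · exact Or.inr h8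

/-- A simple reflection in `fI` is a left descent of `φ(x) y` iff its conjugate is one of `x`. -/
theorem descent_conj (h1 : v ∈ L cs E) (h2 : v ∈ R cs K) {x y : W}
    (hx : x ∈ P cs (I cs E K v)) (hy : y ∈ L cs (fI cs E K v)) {i k : B} (hi : i ∈ E) (hk : k ∈ K)
    (h : cs.simple i * v = v * cs.simple k) :
    cs.length (cs.simple k * (v⁻¹ * x * v * y)) < cs.length (v⁻¹ * x * v * y) ↔ cs.length (cs.simple i * x) < cs.length x := by
  have hsx : cs.simple i * x ∈ P cs (I cs E K v) := mul_mem (simple_mem_P ⟨hi, k, hk, h⟩) hx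
  have e : cs.simple k * (v⁻¹ * x * v * y) = v⁻¹ * (cs.simple i * x) * v * y := by
    have h3 : cs.simple k = v⁻¹ * (cs.simple i * v) := by rw [h]; group
    rw [h3]
    group
  rw [e, length_mul_L hy (conj_mem hx), length_mul_L hy (conj_mem hsx), length_conj h1 h2 hx,
    length_conj h1 h2 hsx]
  omega

end double

/-! ### The basic construction -/

variable (cs)

/-- The left descent set. -/
def D (b : W) : Set B := {i | cs.length (cs.simple i * b) < cs.length b}

/-- The condition for a Billey-Postnikov decomposition `w = x y`. -/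
def BPc (J : Set B) (x y : W) : Prop := ∀ i ∈ supp cs x, i ∈ J → cs.length (cs.simple i * y) < cs.length y

/-- The set `E`. -/
def EE (J : Set B) (b : W) : Set B := D cs b ∪ Jᶜ

variable {cs}

theorem D_subset {J : Set B} {b : W} (hb : b ∈ P cs J) : D cs b ⊆ J := fun _ hi => descent_mem hb hi

theorem D_subset_supp (b : W) : D cs b ⊆ supp cs b := D_subset (mem_P_supp b)

/-- The elements attached to two decompositions `a b = c d`. -/
structure Dat (cs : CoxeterSystem M W) (J K : Set B) (a b c d : W) where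
  u : W
  v : W
  v1 : W
  vK : W
  q1 : W
  q2 : W
  hu : u ∈ P cs (D cs b)
  hv : v ∈ L cs (D cs b)
  hb : b = u * v
  hv1 : v1 ∈ R cs K
  hvK : vK ∈ P cs K
  hvv : v = v1 * vK
  hq1 : q1 ∈ R cs (I cs (EE cs J b) K v1)
  hq2 : q2 ∈ P cs (I cs (EE cs J b) K v1)
  hq : a * u = q1 * q2
  ha : a ∈ R cs J
  hbJ : b ∈ P cs J
  hBP : BPc cs J a b
  hc : c ∈ R cs K
  hd : d ∈ P cs K
  he : a * b = c * d

theorem exists_dat {J K : Set B} {a b c d : W} (ha : a ∈ R cs J) (hbJ : b ∈ P cs J)
    (hBP : BPc cs J a b) (hc : c ∈ R cs K) (hd : d ∈ P cs K) (he : a * b = c * d) :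
    Nonempty (Dat cs J K a b c d) := by
  obtain ⟨u, hu, v, hv, hb, _⟩ := exists_decomp_L (cs := cs) (D cs b) b
  obtain ⟨v1, hv1, vK, hvK, hvv⟩ := exists_decomp_R (cs := cs) K v
  obtain ⟨q1, hq1, q2, hq2, hq⟩ := exists_decomp_R (cs := cs) (I cs (EE cs J b) K v1) (a * u)
  exact ⟨⟨u, v, v1, vK, q1, q2, hu, hv, hb, hv1, hvK, hvv, hq1, hq2, hq, ha, hbJ, hBP, hc, hd, he⟩⟩

namespace Dat

variable {J K : Set B} {a b c d : W} (X : Dat cs J K a b c d)
include X

theorem huJ : X.u ∈ P cs J := P_mono (D_subset X.hbJ) X.hu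

theorem vJ : X.v ∈ P cs J := by
  have h : X.v = X.u⁻¹ * b := eq_inv_mul_of_mul_eq X.hb.symm
  rw [h]
  exact mul_mem (inv_mem X.huJ) X.hbJ

theorem vE : X.v ∈ L cs (EE cs J b) := by
  rintro i (hi | hi)
  · exact X.hv i hi
  · exact not_descent (fun h => hi (mem_P_iff.1 X.vJ h))

theorem length_v : cs.length X.v = cs.length X.v1 + cs.length X.vK := by
  rw [X.hvv]
  exact length_mul_R X.hv1 X.hvK

theorem v1E : X.v1 ∈ L cs (EE cs J b) := by
  intro i hi
  have h1 := X.vE i hi
  have h2 := X.length_v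
  have h3 : cs.simple i * X.v = cs.simple i * X.v1 * X.vK := by rw [X.hvv, mul_assoc]
  have h4 := cs.length_mul_le (cs.simple i * X.v1) X.vK
  rw [← h3] at h4
  have h5 := cs.length_simple_mul X.v1 i
  omega

theorem supp_v : supp cs X.v = supp cs X.v1 ∪ supp cs X.vK := by
  have h := X.length_v
  rw [X.hvv] at h ⊢
  exact supp_mul h

theorem v1J : X.v1 ∈ P cs J := by
  rw [mem_P_iff]
  have h := mem_P_iff.1 X.vJ
  rw [X.supp_v] at h
  exact Set.subset_union_left.trans h

theorem vKJ : X.vK ∈ P cs J := by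
  rw [mem_P_iff]
  have h := mem_P_iff.1 X.vJ
  rw [X.supp_v] at h
  exact Set.subset_union_right.trans h

theorem aE : a ∈ P cs (EE cs J b) := by
  rw [mem_P_iff]
  intro i hi
  by_cases hiJ : i ∈ J
  · exact Or.inl (X.hBP i hi hiJ)
  · exact Or.inr hiJ

theorem qE : a * X.u ∈ P cs (EE cs J b) :=
  mul_mem X.aE (P_mono Set.subset_union_left X.hu)

theorem q1E : X.q1 ∈ P cs (EE cs J b) := by
  have h : X.q1 = a * X.u * X.q2⁻¹ := by rw [X.hq, mul_inv_cancel_right]
  rw [h]
  exact mul_mem X.qE (inv_mem (P_mono I_subset X.hq2))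

theorem q1v1 : X.q1 * X.v1 ∈ R cs K := mul_mem_R X.v1E X.hv1 _ X.q1E X.hq1

theorem cd : c = X.q1 * X.v1 ∧ d = X.v1⁻¹ * X.q2 * X.v1 * X.vK := by
  refine decomp_R_unique X.hc X.q1v1 X.hd
    (mul_mem (P_mono fI_subset (conj_mem X.hq2)) X.hvK) ?_
  calc c * d = a * b := X.he.symm
    _ = a * (X.u * X.v) := congrArg (a * ·) X.hb
    _ = a * (X.u * (X.v1 * X.vK)) := by rw [X.hvv]
    _ = a * X.u * X.v1 * X.vK := by simp only [mul_assoc]
    _ = X.q1 * X.q2 * X.v1 * X.vK := by rw [X.hq]
    _ = _ := by group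

theorem vKf : X.vK ∈ L cs (fI cs (EE cs J b) K X.v1) := by
  rintro k ⟨hk, i, hi, hik⟩
  have h1 := X.vE i hi
  have h2 := X.length_v
  have h3 : cs.simple i * X.v = X.v1 * (cs.simple k * X.vK) := by
    rw [X.hvv, ← mul_assoc, hik, mul_assoc]
  have h4 := cs.length_mul_le X.v1 (cs.simple k * X.vK)
  rw [← h3] at h4
  have h5 := cs.length_simple_mul X.vK k
  omega

theorem supp_c : supp cs c = supp cs X.q1 ∪ supp cs X.v1 :=
  (congrArg (supp cs) X.cd.1).trans (supp_mul (length_mul_L X.v1E X.q1E))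

theorem descent_d {i k : B} (hi : i ∈ EE cs J b) (hk : k ∈ K) (h : cs.simple i * X.v1 = X.v1 * cs.simple k) :
    cs.length (cs.simple k * d) < cs.length d ↔ cs.length (cs.simple i * X.q2) < cs.length X.q2 := by
  have h0 := descent_conj X.v1E X.hv1 X.hq2 X.vKf hi hk h
  have h1 : cs.length (cs.simple k * d) = cs.length (cs.simple k * (X.v1⁻¹ * X.q2 * X.v1 * X.vK)) :=
    congrArg (fun t => cs.length (cs.simple k * t)) X.cd.2
  have h2 : cs.length d = cs.length (X.v1⁻¹ * X.q2 * X.v1 * X.vK) := congrArg (fun t => cs.length t) X.cd.2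
  omega

theorem mem_I_of_supp {k : B} (hk : k ∈ K) (hkJ : k ∉ J) (hkd : k ∈ supp cs d) :
    k ∈ I cs (EE cs J b) K X.v1 ∧ cs.simple k * X.v1 = X.v1 * cs.simple k := by
  have hkd' : k ∈ supp cs (X.v1⁻¹ * X.q2 * X.v1 * X.vK) := (congrArg (supp cs) X.cd.2) ▸ hkd
  have h1 := supp_subset_of_mul_le _ _ hkd'
  have h2 : k ∉ supp cs X.vK := fun h => hkJ (mem_P_iff.1 X.vKJ h)
  have h3 : k ∈ supp cs (X.v1⁻¹ * X.q2 * X.v1) := by
    rcases h1 with h | h
    · exact h
    · exact absurd h h2
  obtain ⟨hk', i, hi, hik⟩ := mem_P_iff.1 (conj_mem X.hq2) h3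
  rcases supp_conj X.v1E X.hv1 hi hk' hik with h4 | h4
  · subst h4
    exact ⟨⟨hi, i, hk, hik⟩, hik⟩
  · exact absurd (mem_P_iff.1 X.v1J h4) hkJ

/-- All elements of `D` are left descents of `u`. -/
theorem descent_u {i : B} (hi : i ∈ D cs b) : cs.length (cs.simple i * X.u) < cs.length X.u := by
  have h1 := length_mul_L X.hv X.hu
  have h2 := length_mul_L X.hv (mul_mem (simple_mem_P hi) X.hu)
  have h3 : cs.length (cs.simple i * b) < cs.length b := hi
  have h4 : cs.length (cs.simple i * b) = cs.length (cs.simple i * X.u * X.v) :=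
    congrArg (fun t => cs.length t) ((congrArg (cs.simple i * ·) X.hb).trans (mul_assoc _ _ _).symm)
  have h5 : cs.length b = cs.length (X.u * X.v) := congrArg (fun t => cs.length t) X.hb
  omega

end Dat

/-! ### Unions -/

variable (cs) in
/-- The statement for the induction. -/
def Stmt (n : ℕ) : Prop :=
  ∀ (J K : Set B) (a b c d : W) (r : B), cs.length (a * b) = n → a ∈ R cs J → b ∈ P cs J →
    BPc cs J a b → c ∈ R cs K → d ∈ P cs K → BPc cs K c d → a * b = c * d →
    a * b ∈ P cs (J ∪ K) → r ∈ J ∪ K → (r ∈ J → cs.length (cs.simple r * b) < cs.length b) →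
    (r ∈ K → cs.length (cs.simple r * d) < cs.length d) → cs.length (cs.simple r * (a * b)) < cs.length (a * b)

theorem step {n : ℕ} (ih : ∀ m, m < n → Stmt cs m) (J K : Set B) (a b c d : W) (r : B)
    (hn : cs.length (a * b) = n) (ha : a ∈ R cs J) (hb : b ∈ P cs J) (hBPJ : BPc cs J a b)
    (hc : c ∈ R cs K) (hd : d ∈ P cs K) (hBPK : BPc cs K c d) (he : a * b = c * d)
    (hJK : a * b ∈ P cs (J ∪ K)) (hr : r ∈ J ∪ K) (hrJ : r ∈ J → cs.length (cs.simple r * b) < cs.length b)
    (hrK : r ∈ K → cs.length (cs.simple r * d) < cs.length d) (hbD : b ∉ P cs (D cs b)) :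
    cs.length (cs.simple r * (a * b)) < cs.length (a * b) := by
  obtain ⟨X⟩ := exists_dat ha hb hBPJ hc hd he
  have hv1 : X.v ≠ 1 := by
    intro h
    apply hbD
    have h1 : b = X.u := X.hb.trans ((congrArg (X.u * ·) h).trans (mul_one _))
    have h2 : (X.u : W) ∈ P cs (D cs b) := X.hu
    exact (congrArg (· ∈ P cs (D cs b)) h1).mpr h2
  have hlv : 0 < cs.length X.v := by
    rw [Nat.pos_iff_ne_zero]
    intro h
    exact hv1 (cs.length_eq_zero_iff.1 h)
  have ew : a * b = a * X.u * X.v := (congrArg (a * ·) X.hb).trans (mul_assoc _ _ _).symm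
  have hlen : cs.length (a * b) = cs.length (a * X.u) + cs.length X.v :=
    (congrArg (fun t => cs.length t) ew).trans (length_mul_L X.vE X.qE)
  have haD : a ∈ R cs (D cs b) := R_mono (D_subset hb) ha
  -- supports
  have hlab : cs.length (a * b) = cs.length a + cs.length b := length_mul_R ha hb
  have hlcd : cs.length (c * d) = cs.length c + cs.length d := length_mul_R hc hd
  have hsab := supp_mul hlab
  have hscd := supp_mul hlcd
  have hsd : ∀ i ∈ supp cs (a * b), i ∈ K → i ∈ supp cs d := by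
    intro i hi hiK
    rw [he, hscd] at hi
    rcases hi with h | h
    · exact D_subset_supp d (hBPK i h hiK)
    · exact h
  have key : cs.length (cs.simple r * (a * X.u)) < cs.length (a * X.u) := by
    refine ih (cs.length (a * X.u)) (by omega) (D cs b) (I cs (EE cs J b) K X.v1) a X.u X.q1 X.q2 r rfl
      haD X.hu ?_ X.hq1 X.hq2 ?_ X.hq ?_ ?_ ?_ ?_
    · intro i _ hi
      exact X.descent_u hi
    · rintro i hi ⟨hiE, k, hk, hik⟩
      rw [← X.descent_d hiE hk hik]
      apply hBPK k _ hk
      rw [X.supp_c]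
      rcases supp_conj X.v1E X.hv1 hiE hk hik with h | h
      · left
        rw [← h]
        exact hi
      · right
        exact h
    · rw [mem_P_iff]
      refine (supp_subset_of_mul_le a X.u).trans ?_
      rintro i (hi | hi)
      · by_cases hiJ : i ∈ J
        · exact Or.inl (hBPJ i hi hiJ)
        · right
          have h1 : i ∈ supp cs (a * b) := by rw [hsab]; exact Or.inl hi
          have hiK : i ∈ K := by
            rcases mem_P_iff.1 hJK h1 with h | h
            · exact absurd h hiJ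
            · exact h
          exact (X.mem_I_of_supp hiK hiJ (hsd i h1 hiK)).1
      · exact Or.inl (mem_P_iff.1 X.hu hi)
    · by_cases hrJ' : r ∈ J
      · exact Or.inl (hrJ hrJ')
      · right
        have hrK' : r ∈ K := by
          rcases hr with h | h
          · exact absurd h hrJ'
          · exact h
        exact (X.mem_I_of_supp hrK' hrJ' (D_subset_supp d (hrK hrK'))).1
    · intro h
      exact X.descent_u h
    · rintro ⟨hrE, k, hk, hrk⟩
      rw [← X.descent_d hrE hk hrk]
      rcases supp_conj X.v1E X.hv1 hrE hk hrk with h | h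
      · subst h
        exact hrK hk
      · apply hBPK k _ hk
        rw [X.supp_c]
        exact Or.inr h
  have h1 := cs.length_mul_le (cs.simple r * (a * X.u)) X.v
  have e2 : cs.simple r * (a * X.u) * X.v = cs.simple r * (a * b) := by rw [ew, mul_assoc]
  rw [e2] at h1
  omega

theorem final (J K : Set B) (a b c d : W) (r : B)
    (ha : a ∈ R cs J) (hb : b ∈ P cs J) (hBPJ : BPc cs J a b)
    (hc : c ∈ R cs K) (hd : d ∈ P cs K) (hBPK : BPc cs K c d) (he : a * b = c * d)
    (hJK : a * b ∈ P cs (J ∪ K)) (hr : r ∈ J ∪ K) (hrJ : r ∈ J → cs.length (cs.simple r * b) < cs.length b)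
    (hrK : r ∈ K → cs.length (cs.simple r * d) < cs.length d) (hbD : b ∈ P cs (D cs b)) (hdD : d ∈ P cs (D cs d)) :
    cs.length (cs.simple r * (a * b)) < cs.length (a * b) := by
  have hlab : cs.length (a * b) = cs.length a + cs.length b := length_mul_R ha hb
  have hlcd : cs.length (c * d) = cs.length c + cs.length d := length_mul_R hc hd
  have hsab := supp_mul hlab
  have hscd := supp_mul hlcd
  have hw : a * b ∈ P cs (D cs b ∪ D cs d) := by
    rw [mem_P_iff]
    intro i hi
    rcases mem_P_iff.1 hJK hi with hiJ | hiK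
    · left
      rw [hsab] at hi
      rcases hi with h | h
      · exact hBPJ i h hiJ
      · exact mem_P_iff.1 hbD h
    · right
      rw [he, hscd] at hi
      rcases hi with h | h
      · exact hBPK i h hiK
      · exact mem_P_iff.1 hdD h
  have h1 : ∀ i ∈ D cs b ∪ D cs d, cs.length (a * b * cs.simple i) < cs.length (a * b) := by
    rintro i (hi | hi)
    · have h2 := descents_swap' hbD (fun j hj => hj) i hi
      have h3 := cs.length_mul_le a (b * cs.simple i)
      rw [mul_assoc]
      omega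
    · have h2 := descents_swap' hdD (fun j hj => hj) i hi
      have h3 := cs.length_mul_le c (d * cs.simple i)
      rw [he, mul_assoc]
      omega
  have h2 := descents_swap hw h1
  apply h2
  rcases hr with h | h
  · exact Or.inl (hrJ h)
  · exact Or.inr (hrK h)

theorem stmt_all (n : ℕ) : Stmt cs n := by
  induction n using Nat.strong_induction_on with
  | _ n ih =>
    intro J K a b c d r hn ha hb hBPJ hc hd hBPK he hJK hr hrJ hrK
    by_cases h1 : b ∈ P cs (D cs b)
    · by_cases h2 : d ∈ P cs (D cs d)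
      · exact final J K a b c d r ha hb hBPJ hc hd hBPK he hJK hr hrJ hrK h1 h2
      · rw [he] at hn hJK ⊢
        rw [Set.union_comm] at hJK hr
        exact step ih K J c d a b r hn hc hd hBPK ha hb hBPJ he.symm hJK hr hrK hrJ h2
    · exact step ih J K a b c d r hn ha hb hBPJ hc hd hBPK he hJK hr hrJ hrK h1

/-! ### The theorems -/

variable (cs) in
/-- `w = w^J w_J` is a Billey-Postnikov decomposition. -/
def IsBP (J : Set B) (w : W) : Prop :=
  ∃ x ∈ R cs J, ∃ y ∈ P cs J, w = x * y ∧ BPc cs J x y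

theorem mul_mem_R' {J N : Set B} (hJN : J ⊆ N) {x y : W} (hx : x ∈ R cs N) (hyN : y ∈ P cs N)
    (hyJ : y ∈ R cs J) : x * y ∈ R cs J := by
  intro j hj
  have h1 := hyJ j hj
  rw [mul_assoc, length_mul_R hx hyN, length_mul_R hx (mul_mem hyN (simple_mem_P (hJN hj)))]
  omega

/-- The decomposition of a decomposition. -/
theorem sub_decomp {J N : Set B} (hJN : J ⊆ N) {x y a b : W} (hx : x ∈ R cs N) (hy : y ∈ P cs N)
    (ha : a ∈ R cs J) (hb : b ∈ P cs J) (h : x * y = a * b) :
    ∃ a' ∈ R cs J, a' ∈ P cs N ∧ y = a' * b ∧ a = x * a' := by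
  obtain ⟨a', ha', b', hb', e⟩ := exists_decomp_R (cs := cs) J y
  have ha'N : a' ∈ P cs N := by
    have : a' = y * b'⁻¹ := by rw [e, mul_inv_cancel_right]
    rw [this]
    exact mul_mem hy (inv_mem (P_mono hJN hb'))
  have h1 := decomp_R_unique ha (mul_mem_R' hJN hx ha'N ha') hb hb'
    (by rw [← h, e, mul_assoc])
  exact ⟨a', ha', ha'N, by rw [h1.2]; exact e, h1.1⟩

theorem union_bp {J K : Set B} {w : W} (hJ : IsBP cs J w) (hK : IsBP cs K w) :
    IsBP cs (J ∪ K) w := by
  obtain ⟨a, ha, b, hb, hab, hBPJ⟩ := hJ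
  obtain ⟨c, hc, d, hd, hcd, hBPK⟩ := hK
  obtain ⟨x, hx, y, hy, hxy⟩ := exists_decomp_R (cs := cs) (J ∪ K) w
  refine ⟨x, hx, y, hy, hxy, ?_⟩
  obtain ⟨a', ha', ha'N, e1, e2⟩ := sub_decomp Set.subset_union_left hx hy ha hb
    (by rw [← hxy, ← hab])
  obtain ⟨c', hc', hc'N, e3, e4⟩ := sub_decomp Set.subset_union_right hx hy hc hd
    (by rw [← hxy, ← hcd])
  have hsa : supp cs a = supp cs x ∪ supp cs a' := by
    rw [e2]; exact supp_mul (length_mul_R hx ha'N)
  have hsc : supp cs c = supp cs x ∪ supp cs c' := by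
    rw [e4]; exact supp_mul (length_mul_R hx hc'N)
  intro r hr hrJK
  rw [e1]
  refine stmt_all _ J K a' b c' d r rfl ha' hb ?_ hc' hd ?_ (by rw [← e1, ← e3]) (by rw [← e1]; exact hy)
    hrJK ?_ ?_
  · intro i hi hiJ
    exact hBPJ i (by rw [hsa]; exact Or.inr hi) hiJ
  · intro i hi hiK
    exact hBPK i (by rw [hsc]; exact Or.inr hi) hiK
  · intro hrJ
    exact hBPJ r (by rw [hsa]; exact Or.inl hr) hrJ
  · intro hrK
    exact hBPK r (by rw [hsc]; exact Or.inl hr) hrK

theorem inter_bp {J K : Set B} {w : W} (hJ : IsBP cs J w) (hK : IsBP cs K w) :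
    IsBP cs (J ∩ K) w := by
  obtain ⟨a, ha, b, hb, hab, hBPJ⟩ := hJ
  obtain ⟨c, hc, d, hd, hcd, hBPK⟩ := hK
  obtain ⟨X⟩ := exists_dat ha hb hBPJ hc hd (hab.symm.trans hcd)
  set N : Set B := J ∩ K with hN
  have hNJ : N ⊆ J := Set.inter_subset_left
  have hNK : N ⊆ K := Set.inter_subset_right
  have hvKN : X.vK ∈ P cs N := by
    rw [mem_P_iff]
    exact Set.subset_inter (mem_P_iff.1 X.vKJ) (mem_P_iff.1 X.hvK)
  set p : W := X.v1⁻¹ * X.q2 * X.v1 with hp
  have hpf : p ∈ P cs (fI cs (EE cs J b) K X.v1) := conj_mem X.hq2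
  have hpK : p ∈ P cs K := P_mono fI_subset hpf
  obtain ⟨p1, hp1, p2, hp2, hpp⟩ := exists_decomp_R (cs := cs) N p
  have hp1K : p1 ∈ P cs K := by
    have : p1 = p * p2⁻¹ := by rw [hpp, mul_inv_cancel_right]
    rw [this]
    exact mul_mem hpK (inv_mem (P_mono hNK hp2))
  have hdp : d = p1 * (p2 * X.vK) :=
    X.cd.2.trans ((congrArg (· * X.vK) hpp).trans (mul_assoc _ _ _))
  set y : W := p2 * X.vK with hy
  have hyN : y ∈ P cs N := mul_mem hp2 hvKN
  have hxR : c * p1 ∈ R cs N := mul_mem_R' hNK hc hp1K hp1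
  refine ⟨c * p1, hxR, y, hyN, by rw [hcd, hdp, mul_assoc], ?_⟩
  have hsx : supp cs (c * p1) = supp cs c ∪ supp cs p1 := supp_mul (length_mul_R hc hp1K)
  have hsp : supp cs p1 ⊆ fI cs (EE cs J b) K X.v1 := by
    have h1 : supp cs p = supp cs p1 ∪ supp cs p2 := by
      rw [hpp]; exact supp_mul (length_mul_R hp1 hp2)
    have h2 := mem_P_iff.1 hpf
    rw [h1] at h2
    exact Set.subset_union_left.trans h2
  intro i hi hiN
  by_cases hif : i ∈ fI cs (EE cs J b) K X.v1
  · -- the case `i ∈ φ(I)`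
    obtain ⟨hiK, e, heE, hei⟩ := hif
    have heJ : e ∈ J := by
      apply mem_of_simple_mem_P (cs := cs)
      have : cs.simple e = X.v1 * cs.simple i * X.v1⁻¹ := by rw [← hei, mul_inv_cancel_right]
      rw [this]
      exact mul_mem (mul_mem X.v1J (simple_mem_P (hNJ hiN))) (inv_mem X.v1J)
    have heD : e ∈ D cs b := by
      rcases heE with h | h
      · exact h
      · exact absurd heJ h
    have hv1D : X.v1 ∈ L cs (D cs b) := L_mono Set.subset_union_left X.v1E
    have hv1N : X.v1 ∈ R cs N := R_mono hNK X.hv1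
    obtain ⟨u1, hu1, u2, hu2, huu⟩ := exists_decomp_R (cs := cs) (I cs (D cs b) N X.v1) X.u
    have hu2D : u2 ∈ P cs (D cs b) := P_mono I_subset hu2
    have hu1D : u1 ∈ P cs (D cs b) := by
      have : u1 = X.u * u2⁻¹ := by rw [huu, mul_inv_cancel_right]
      rw [this]
      exact mul_mem X.hu (inv_mem hu2D)
    have h1 : u1 * X.v1 ∈ R cs N := mul_mem_R hv1D hv1N u1 hu1D hu1
    have h2 : X.v1⁻¹ * u2 * X.v1 * X.vK ∈ P cs N :=
      mul_mem (P_mono fI_subset (conj_mem hu2)) hvKN
    have hu1J : u1 * X.v1 ∈ P cs J := mul_mem (P_mono (D_subset hb) hu1D) X.v1J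
    have h3 : a * (u1 * X.v1) ∈ R cs N := mul_mem_R' hNJ ha hu1J h1
    have h4 : y = X.v1⁻¹ * u2 * X.v1 * X.vK := by
      refine (decomp_R_unique hxR h3 hyN h2 ?_).2
      calc c * p1 * y = a * b := by rw [mul_assoc, ← hdp, ← hcd, ← hab]
        _ = a * (X.u * X.v) := congrArg (a * ·) X.hb
        _ = a * (X.u * (X.v1 * X.vK)) := by rw [← X.hvv]
        _ = a * (u1 * u2 * (X.v1 * X.vK)) := by rw [← huu]
        _ = _ := by group
    have hvKf : X.vK ∈ L cs (fI cs (D cs b) N X.v1) := by
      apply L_mono _ X.vKf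
      rintro k ⟨hk, j, hj, hjk⟩
      exact ⟨hNK hk, j, Or.inl hj, hjk⟩
    rw [h4, descent_conj hv1D hv1N hu2 hvKf heD hiN hei]
    have h5 := descents_swap' X.hu (fun j hj => X.descent_u hj)
    have h6 : ∀ j ∈ I cs (D cs b) N X.v1, cs.length (u2 * cs.simple j) < cs.length u2 := by
      intro j hj
      have h7 := h5 j hj.1
      rw [huu, mul_assoc, length_mul_R hu1 hu2,
        length_mul_R hu1 (mul_mem hu2 (simple_mem_P hj))] at h7
      omega
    exact descents_swap hu2 h6 e ⟨heD, i, hiN, hei⟩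
  · -- the other case
    have hip : i ∉ supp cs p1 := fun h => hif (hsp h)
    have hic : i ∈ supp cs c := by
      rw [hsx] at hi
      rcases hi with h | h
      · exact h
      · exact absurd h hip
    have h1 := hBPK i hic (hNK hiN)
    have h2 := not_descent hip
    have hld : cs.length d = cs.length p1 + cs.length y := by rw [hdp]; exact length_mul_R hp1 hyN
    have h3 := cs.length_simple_mul p1 i
    rcases deodhar_up hp1 h2 with h4 | ⟨t, ht, h4⟩
    · exfalso
      have h5 := length_mul_R h4 hyN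
      rw [mul_assoc, ← hdp] at h5
      omega
    · have h5 : cs.length (cs.simple i * p1) = cs.length (cs.simple i) + cs.length p1 := by
        rw [cs.length_simple]; omega
      have h6 := supp_mul h5
      have h7 := supp_mul (length_mul_R hp1 (simple_mem_P ht))
      rw [← h4, h6, supp_simple, supp_simple] at h7
      have h8 : i ∈ {i} ∪ supp cs p1 := Or.inl rfl
      rw [h7] at h8
      have h9 : i = t := by
        rcases h8 with h | h
        · exact absurd h hip
        · exact h
      subst h9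
      have h10 : cs.simple i * d = p1 * (cs.simple i * y) := by
        rw [hdp, ← mul_assoc, h4, mul_assoc]
      rw [h10, length_mul_R hp1 (mul_mem (simple_mem_P hiN) hyN)] at h1
      omega

end Q27.Cox
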