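import Pool.Agent.W397.DC.DD

/-!
# Parabolic subgroups, supports, coset representatives in Coxeter groups
-/

set_option autoImplicit false
set_option linter.unusedSectionVars false

namespace Q27.Cox

open CoxeterSystem

variable {B : Type*} {M : CoxeterMatrix B} {W : Type*} [Group W] (cs : CoxeterSystem M W)


theorem simple_inj {i j : B} (h : cs.simple i = cs.simple j) : i = j := by
  by_contra hij
  exact Pool.Agent.W397.DC.simple_ne cs hij h

theorem exchange_left {ω : List B} {i : B} (h : cs.length (cs.simple i * cs.wordProd ω) < cs.length (cs.wordProd ω)) :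
    ∃ j, j < ω.length ∧ cs.simple i * cs.wordProd ω = cs.wordProd (ω.eraseIdx j) :=
  Pool.Agent.Helper741.exchange cs ω i h

/-- The exchange condition for a product. -/
theorem exchange_mul {x y : W} {i : B} (h : cs.length (cs.simple i * (x * y)) < cs.length (x * y)) :
    (∃ x', cs.length x' < cs.length x ∧ cs.simple i * (x * y) = x' * y ∧ (∀ H : Subgroup W, cs.simple i ∈ H → x ∈ H → x' ∈ H)) ∨
      ∃ y', cs.length y' < cs.length y ∧ cs.simple i * (x * y) = x * y' := by
  obtain ⟨ω, hω, rfl⟩ := cs.exists_isReduced x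
  obtain ⟨ω', hω', rfl⟩ := cs.exists_isReduced y
  rw [← cs.wordProd_append] at h
  obtain ⟨j, hj, hje⟩ := exchange_left cs h
  rw [List.length_append] at hj
  rcases Nat.lt_or_ge j ω.length with h1 | h1
  · left
    refine ⟨cs.wordProd (ω.eraseIdx j), ?_, ?_, ?_⟩
    · have h2 := cs.length_wordProd_le (ω.eraseIdx j)
      have h3 := List.length_eraseIdx_add_one h1
      rw [hω.eq]
      omega
    · rw [← cs.wordProd_append, hje, List.eraseIdx_append_of_lt_length h1, cs.wordProd_append]
    · intro H hi hx
      rw [List.eraseIdx_append_of_lt_length h1, cs.wordProd_append, cs.wordProd_append,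
        ← mul_assoc] at hje
      rw [← mul_right_cancel hje]
      exact mul_mem hi hx
  · right
    refine ⟨cs.wordProd (ω'.eraseIdx (j - ω.length)), ?_, ?_⟩
    · have h2 := cs.length_wordProd_le (ω'.eraseIdx (j - ω.length))
      have h3 := List.length_eraseIdx_add_one (l := ω') (i := j - ω.length) (by omega)
      rw [hω'.eq]
      omega
    · rw [← cs.wordProd_append, hje, List.eraseIdx_append_of_length_le h1, cs.wordProd_append]

/-! ### Parabolic subgroups -/

/-- The standard parabolic subgroup `W_J`. -/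
def P (J : Set B) : Subgroup W := Subgroup.closure (cs.simple '' J)

variable {cs}

theorem simple_mem_P {J : Set B} {j : B} (hj : j ∈ J) : cs.simple j ∈ P cs J :=
  Subgroup.subset_closure ⟨j, hj, rfl⟩

theorem P_mono {J K : Set B} (h : J ⊆ K) : P cs J ≤ P cs K :=
  Subgroup.closure_mono (Set.image_mono h)

theorem wordProd_mem_P {J : Set B} {ω : List B} (h : ∀ i ∈ ω, i ∈ J) : cs.wordProd ω ∈ P cs J := by
  induction ω with
  | nil => simp [cs.wordProd_nil, one_mem]
  | cons i ω ih =>
    rw [cs.wordProd_cons]
    exact mul_mem (simple_mem_P (h i (by simp))) (ih (fun j hj => h j (by simp [hj])))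

/-- Deletion. -/
theorem exists_reduced_sublist (ω : List B) :
    ∃ ω', cs.IsReduced ω' ∧ ω'.Sublist ω ∧ cs.wordProd ω' = cs.wordProd ω := by
  induction ω with
  | nil => exact ⟨[], by unfold CoxeterSystem.IsReduced; simp, List.Sublist.refl _, rfl⟩
  | cons i ω ih =>
    obtain ⟨ω', h1, h2, h3⟩ := ih
    rcases cs.length_simple_mul (cs.wordProd ω') i with h | h
    · refine ⟨i :: ω', ?_, h2.cons_cons i, ?_⟩
      · unfold CoxeterSystem.IsReduced
        rw [cs.wordProd_cons, h, h1.eq, List.length_cons]
      · rw [cs.wordProd_cons, cs.wordProd_cons, h3]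
    · obtain ⟨j, hj, hje⟩ := exchange_left cs (ω := ω') (i := i) (by omega)
      refine ⟨ω'.eraseIdx j, ?_, ?_, ?_⟩
      · unfold CoxeterSystem.IsReduced
        rw [← hje]
        have h4 := List.length_eraseIdx_add_one hj
        have h5 := h1.eq
        omega
      · exact ((List.eraseIdx_sublist _ _).trans h2).cons i
      · rw [← hje, cs.wordProd_cons, h3]

theorem exists_word {J : Set B} {w : W} (hw : w ∈ P cs J) :
    ∃ ω : List B, (∀ i ∈ ω, i ∈ J) ∧ cs.wordProd ω = w := by
  unfold P at hw
  induction hw using Subgroup.closure_induction with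
  | mem x hx =>
    obtain ⟨j, hj, rfl⟩ := hx
    exact ⟨[j], by simpa using hj, by simp [cs.wordProd_cons, cs.wordProd_nil]⟩
  | one => exact ⟨[], by simp, by simp⟩
  | mul x y _ _ hx hy =>
    obtain ⟨ω, h1, rfl⟩ := hx
    obtain ⟨ω', h1', rfl⟩ := hy
    refine ⟨ω ++ ω', ?_, cs.wordProd_append _ _⟩
    intro i hi
    rw [List.mem_append] at hi
    exact hi.elim (h1 i) (h1' i)
  | inv x _ hx =>
    obtain ⟨ω, h1, rfl⟩ := hx
    exact ⟨ω.reverse, fun i hi => h1 i (List.mem_reverse.1 hi), cs.wordProd_reverse ω⟩

theorem exists_reduced_word {J : Set B} {w : W} (hw : w ∈ P cs J) :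
    ∃ ω : List B, cs.IsReduced ω ∧ (∀ i ∈ ω, i ∈ J) ∧ cs.wordProd ω = w := by
  obtain ⟨ω, h1, h2⟩ := exists_word hw
  obtain ⟨ω', h3, h4, h5⟩ := exists_reduced_sublist (cs := cs) ω
  exact ⟨ω', h3, fun i hi => h1 i (h4.subset hi), h5.trans h2⟩

theorem mem_of_simple_mem_P {J : Set B} {i : B} (h : cs.simple i ∈ P cs J) : i ∈ J := by
  obtain ⟨ω, h1, h2, h3⟩ := exists_reduced_word h
  have h4 : ω.length = 1 := by
    rw [← h1.eq, h3, cs.length_simple]
  obtain ⟨j, rfl⟩ := List.length_eq_one_iff.1 h4
  rw [cs.wordProd_cons, cs.wordProd_nil, mul_one] at h3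
  rw [← simple_inj cs h3]
  exact h2 j (by simp)

theorem descent_mem {J : Set B} {w : W} (hw : w ∈ P cs J) {i : B} (hi : cs.length (cs.simple i * w) < cs.length w) :
    i ∈ J := by
  obtain ⟨ω, h1, h2, h3⟩ := exists_reduced_word hw
  rw [← h3] at hi
  obtain ⟨j, hj, hje⟩ := exchange_left cs hi
  have h4 : cs.wordProd (ω.eraseIdx j) ∈ P cs J :=
    wordProd_mem_P (fun i hi => h2 i ((List.eraseIdx_sublist _ _).subset hi))
  rw [← hje, h3] at h4
  have h5 : cs.simple i = cs.simple i * w * w⁻¹ := by group
  have h6 : cs.simple i ∈ P cs J := by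
    rw [h5]
    exact mul_mem h4 (inv_mem hw)
  exact mem_of_simple_mem_P h6

theorem reduced_letters {J : Set B} {ω : List B} (hω : cs.IsReduced ω)
    (h : cs.wordProd ω ∈ P cs J) : ∀ i ∈ ω, i ∈ J := by
  induction ω with
  | nil => simp
  | cons i ω ih =>
    have h1 : cs.IsReduced ω := by
      have := hω.drop 1
      simpa using this
    have hlt : cs.length (cs.simple i * cs.wordProd (i :: ω)) < cs.length (cs.wordProd (i :: ω)) := by
      rw [hω.eq, cs.wordProd_cons, cs.simple_mul_simple_cancel_left, h1.eq, List.length_cons]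
      omega
    have hi : i ∈ J := descent_mem h hlt
    have h2 : cs.wordProd ω ∈ P cs J := by
      have h3 : cs.wordProd ω = cs.simple i * cs.wordProd (i :: ω) := by
        rw [cs.wordProd_cons, cs.simple_mul_simple_cancel_left]
      rw [h3]
      exact mul_mem (simple_mem_P hi) h
    intro j hj
    rw [List.mem_cons] at hj
    rcases hj with rfl | hj
    · exact hi
    · exact ih h1 h2 j hj

variable (cs)

/-- The support of `w`: the simple reflections which occur in some reduced word of `w`. -/
def supp (w : W) : Set B := {i | ∃ ω : List B, cs.IsReduced ω ∧ cs.wordProd ω = w ∧ i ∈ ω}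

variable {cs}

theorem supp_eq {w : W} {ω : List B} (hω : cs.IsReduced ω) (h : cs.wordProd ω = w) :
    supp cs w = {i | i ∈ ω} := by
  ext i
  constructor
  · rintro ⟨ω', h1, h2, h3⟩
    have h4 : cs.wordProd ω' ∈ P cs {i | i ∈ ω} := by
      rw [h2, ← h]
      exact wordProd_mem_P (fun i hi => hi)
    exact reduced_letters h1 h4 i h3
  · intro hi
    exact ⟨ω, hω, h, hi⟩

theorem mem_P_iff {J : Set B} {w : W} : w ∈ P cs J ↔ supp cs w ⊆ J := by
  constructor
  · rintro hw i ⟨ω, h1, h2, h3⟩
    exact reduced_letters h1 (h2 ▸ hw) i h3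
  · intro h
    obtain ⟨ω, h1, h2⟩ := cs.exists_isReduced w
    rw [h2]
    exact wordProd_mem_P (fun i hi => h ⟨ω, h1, h2.symm, hi⟩)

theorem mem_P_supp (w : W) : w ∈ P cs (supp cs w) := mem_P_iff.2 subset_rfl

theorem supp_mul {x y : W} (h : cs.length (x * y) = cs.length x + cs.length y) : supp cs (x * y) = supp cs x ∪ supp cs y := by
  obtain ⟨ω, h1, rfl⟩ := cs.exists_isReduced x
  obtain ⟨ω', h1', rfl⟩ := cs.exists_isReduced y
  have h2 : cs.IsReduced (ω ++ ω') := by
    unfold CoxeterSystem.IsReduced
    rw [cs.wordProd_append, h, h1.eq, h1'.eq, List.length_append]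
  rw [supp_eq h1 rfl, supp_eq h1' rfl, supp_eq h2 (cs.wordProd_append _ _)]
  ext i
  simp

theorem supp_simple (i : B) : supp cs (cs.simple i) = {i} := by
  have h1 : cs.IsReduced [i] := by
    unfold CoxeterSystem.IsReduced
    simp [cs.wordProd_cons]
  rw [supp_eq h1 (by simp [cs.wordProd_cons])]
  ext j
  simp

theorem supp_subset_of_mul_le (x y : W) : supp cs (x * y) ⊆ supp cs x ∪ supp cs y := by
  rw [← mem_P_iff]
  exact mul_mem (P_mono Set.subset_union_left (mem_P_supp x))
    (P_mono Set.subset_union_right (mem_P_supp y))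

theorem supp_inv (x : W) : supp cs x⁻¹ = supp cs x := by
  have h : ∀ x : W, supp cs x⁻¹ ⊆ supp cs x := fun x =>
    mem_P_iff.1 (inv_mem (mem_P_supp x))
  refine Set.Subset.antisymm (h x) ?_
  have := h x⁻¹
  rwa [inv_inv] at this

theorem not_descent {w : W} {i : B} (h : i ∉ supp cs w) : cs.length w < cs.length (cs.simple i * w) := by
  rcases cs.length_simple_mul w i with h1 | h1
  · omega
  · exact absurd (descent_mem (mem_P_supp w) (i := i) (by omega)) h

/-! ### Coset representatives -/

variable (cs)

/-- `W^J`: the minimal representatives of the cosets `w W_J`. -/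
def R (J : Set B) : Set W := {v | ∀ j ∈ J, cs.length v < cs.length (v * cs.simple j)}

/-- The minimal representatives of the cosets `W_J w`. -/
def L (J : Set B) : Set W := {v | ∀ j ∈ J, cs.length v < cs.length (cs.simple j * v)}

variable {cs}

theorem inv_mem_R {J : Set B} {v : W} : v⁻¹ ∈ R cs J ↔ v ∈ L cs J := by
  have h : ∀ j, cs.length (v⁻¹ * cs.simple j) = cs.length (cs.simple j * v) := by
    intro j
    rw [← cs.length_inv, mul_inv_rev, inv_inv, cs.inv_simple]
  simp only [R, L, Set.mem_ofPred_eq, h, cs.length_inv]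

theorem inv_mem_L {J : Set B} {v : W} : v⁻¹ ∈ L cs J ↔ v ∈ R cs J := by
  rw [← inv_mem_R, inv_inv]

theorem L_mono {J K : Set B} (h : J ⊆ K) : L cs K ⊆ L cs J := fun _ hv j hj => hv j (h hj)

theorem R_mono {J K : Set B} (h : J ⊆ K) : R cs K ⊆ R cs J := fun _ hv j hj => hv j (h hj)

theorem exists_decomp_L (J : Set B) (w : W) :
    ∃ y ∈ P cs J, ∃ x ∈ L cs J, w = y * x ∧ cs.length w = cs.length y + cs.length x := by
  induction hn : cs.length w using Nat.strong_induction_on generalizing w with
  | _ n ih =>
    by_cases h : w ∈ L cs J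
    · exact ⟨1, one_mem _, w, h, by simp, by simp [hn]⟩
    · simp only [L, Set.mem_ofPred_eq, not_forall, not_lt] at h
      obtain ⟨j, hj, hlt⟩ := h
      have h1 : cs.length (cs.simple j * w) + 1 = cs.length w := by
        rcases cs.length_simple_mul w j with h2 | h2
        · omega
        · exact h2
      obtain ⟨y, hy, x, hx, he, hl⟩ := ih (cs.length (cs.simple j * w)) (by omega) (cs.simple j * w) rfl
      refine ⟨cs.simple j * y, mul_mem (simple_mem_P hj) hy, x, hx, ?_, ?_⟩
      · rw [mul_assoc, ← he, cs.simple_mul_simple_cancel_left]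
      · have h3 : w = cs.simple j * y * x := by
          rw [mul_assoc, ← he, cs.simple_mul_simple_cancel_left]
        have h4 := cs.length_mul_le (cs.simple j * y) x
        have h5 := cs.length_mul_le (cs.simple j) y
        rw [cs.length_simple] at h5
        rw [← h3] at h4
        omega

theorem length_mul_aux {J : Set B} {x : W} (hx : ∀ z ∈ P cs J, cs.length x ≤ cs.length (z * x)) {y : W}
    (hy : y ∈ P cs J) : cs.length (y * x) = cs.length y + cs.length x := by
  obtain ⟨ω, h1, h2, rfl⟩ := exists_reduced_word hy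
  clear hy
  induction ω with
  | nil => simp
  | cons i ω ih =>
    have h3 : cs.IsReduced ω := by
      have := h1.drop 1
      simpa using this
    have h4 := ih h3 (fun j hj => h2 j (by simp [hj]))
    rw [h1.eq, cs.wordProd_cons, List.length_cons]
    rw [h3.eq] at h4
    rw [mul_assoc]
    rcases cs.length_simple_mul (cs.wordProd ω * x) i with h5 | h5
    · omega
    · exfalso
      rcases exchange_mul cs (x := cs.wordProd ω) (y := x) (i := i) (by omega) with
        ⟨x', h6, h7, _⟩ | ⟨y', h6, h7⟩
      · rw [← mul_assoc] at h7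
        have h8 := mul_right_cancel h7
        rw [← cs.wordProd_cons] at h8
        have h9 := h1.eq
        rw [h8, List.length_cons] at h9
        rw [h3.eq] at h6
        omega
      · have h8 : y' = (cs.wordProd ω)⁻¹ * (cs.simple i * cs.wordProd ω) * x := by
          rw [mul_assoc, mul_assoc, h7, inv_mul_cancel_left]
        have h9 : (cs.wordProd ω)⁻¹ * (cs.simple i * cs.wordProd ω) ∈ P cs J := by
          have h10 : cs.wordProd ω ∈ P cs J :=
            wordProd_mem_P (fun j hj => h2 j (by simp [hj]))
          exact mul_mem (inv_mem h10) (mul_mem (simple_mem_P (h2 i (by simp))) h10)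
        have := hx _ h9
        rw [← h8] at this
        omega

theorem length_mul_L {J : Set B} {x y : W} (hx : x ∈ L cs J) (hy : y ∈ P cs J) :
    cs.length (y * x) = cs.length y + cs.length x := by
  -- the element of minimal length in the coset
  classical
  have hex : ∃ n, ∃ z ∈ P cs J, cs.length (z * x) = n := ⟨_, 1, one_mem _, rfl⟩
  obtain ⟨z, hz, hzn⟩ := Nat.find_spec hex
  have hmin : ∀ t ∈ P cs J, cs.length (z * x) ≤ cs.length (t * (z * x)) := by
    intro t ht
    rw [hzn, ← mul_assoc]
    exact Nat.find_min' hex ⟨t * z, mul_mem ht hz, rfl⟩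
  have h1 : ∀ t ∈ P cs J, cs.length (t * (z * x)) = cs.length t + cs.length (z * x) := fun t ht =>
    length_mul_aux hmin ht
  have hz1 : z = 1 := by
    by_contra hne
    have hne' : z⁻¹ ≠ 1 := fun h => hne (inv_eq_one.1 h)
    obtain ⟨j, hj⟩ := cs.exists_leftDescent_of_ne_one hne'
    have hjJ : j ∈ J := descent_mem (inv_mem hz) hj
    have h2 := h1 z⁻¹ (inv_mem hz)
    rw [inv_mul_cancel_left] at h2
    have h3 := h1 (cs.simple j * z⁻¹) (mul_mem (simple_mem_P hjJ) (inv_mem hz))
    have h4 : cs.simple j * z⁻¹ * (z * x) = cs.simple j * x := by group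
    rw [h4] at h3
    have h5 := hx j hjJ
    have h6 : cs.length (cs.simple j * z⁻¹) < cs.length z⁻¹ := hj
    omega
  subst hz1
  simp only [one_mul] at h1
  exact h1 y hy

theorem length_mul_R {J : Set B} {x y : W} (hx : x ∈ R cs J) (hy : y ∈ P cs J) :
    cs.length (x * y) = cs.length x + cs.length y := by
  have h := length_mul_L (x := x⁻¹) (y := y⁻¹) (inv_mem_L.2 hx) (inv_mem hy)
  rw [← mul_inv_rev, cs.length_inv, cs.length_inv, cs.length_inv] at h
  omega

theorem exists_decomp_R (J : Set B) (w : W) :
    ∃ x ∈ R cs J, ∃ y ∈ P cs J, w = x * y := by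
  obtain ⟨y, hy, x, hx, he, _⟩ := exists_decomp_L (cs := cs) J w⁻¹
  refine ⟨x⁻¹, inv_mem_R.2 hx, y⁻¹, inv_mem hy, ?_⟩
  rw [← mul_inv_rev, ← he, inv_inv]

theorem decomp_R_unique {J : Set B} {x x' y y' : W} (hx : x ∈ R cs J) (hx' : x' ∈ R cs J)
    (hy : y ∈ P cs J) (hy' : y' ∈ P cs J) (h : x * y = x' * y') : x = x' ∧ y = y' := by
  have h1 : x' = x * (y * y'⁻¹) := by rw [← mul_assoc, h, mul_inv_cancel_right]
  have h2 : x = x' * (y' * y⁻¹) := by rw [← mul_assoc, ← h, mul_inv_cancel_right]
  have h3 := length_mul_R hx (mul_mem hy (inv_mem hy'))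
  have h4 := length_mul_R hx' (mul_mem hy' (inv_mem hy))
  rw [← h1] at h3
  rw [← h2] at h4
  have h5 : cs.length (y * y'⁻¹) = 0 := by omega
  rw [cs.length_eq_zero_iff] at h5
  rw [h5, mul_one] at h1
  subst h1
  exact ⟨rfl, mul_left_cancel h⟩

/-! ### Deodhar's lemma -/

theorem deodhar_down {J : Set B} {x : W} (hx : x ∈ R cs J) {i : B} (hi : cs.length (cs.simple i * x) < cs.length x) :
    cs.simple i * x ∈ R cs J := by
  intro j hj
  have h1 := hx j hj
  rcases cs.length_mul_simple (cs.simple i * x) j with h2 | h2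
  · omega
  · exfalso
    have h3 := cs.length_mul_le (cs.simple i) (cs.simple i * x * cs.simple j)
    have h4 : cs.simple i * (cs.simple i * x * cs.simple j) = x * cs.simple j := by
      rw [mul_assoc, cs.simple_mul_simple_cancel_left]
    rw [h4, cs.length_simple] at h3
    have h5 := cs.length_simple_mul x i
    have h6 := cs.length_mul_simple x j
    omega

theorem deodhar_up {J : Set B} {x : W} (hx : x ∈ R cs J) {i : B} (hi : cs.length x < cs.length (cs.simple i * x)) :
    cs.simple i * x ∈ R cs J ∨ ∃ j ∈ J, cs.simple i * x = x * cs.simple j := by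
  by_cases h : cs.simple i * x ∈ R cs J
  · exact Or.inl h
  · right
    simp only [R, Set.mem_ofPred_eq, not_forall, not_lt] at h
    obtain ⟨j, hj, hlt⟩ := h
    refine ⟨j, hj, ?_⟩
    have h1 := hx j hj
    have h2 := cs.length_mul_simple x j
    have h3 := cs.length_simple_mul x i
    have h4 := cs.length_mul_simple (cs.simple i * x) j
    have h5 : cs.length (cs.simple i * (x * cs.simple j)) < cs.length (x * cs.simple j) := by
      rw [← mul_assoc]
      omega
    rcases exchange_mul cs h5 with ⟨x', h6, h7, _⟩ | ⟨y', h6, h7⟩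
    · exfalso
      rw [← mul_assoc] at h7
      have h8 := mul_right_cancel h7
      rw [h8] at hi
      omega
    · rw [cs.length_simple] at h6
      have h8 : y' = 1 := by
        rw [← cs.length_eq_zero_iff]
        omega
      rw [h8, mul_one, ← mul_assoc] at h7
      calc cs.simple i * x = cs.simple i * x * cs.simple j * cs.simple j := by
            rw [mul_assoc (cs.simple i * x), cs.simple_mul_simple_self, mul_one]
        _ = x * cs.simple j := by rw [h7]

/-! ### Elements with many descents -/

theorem descents_R {X : Set B} {b : W} (hb : ∀ i ∈ X, cs.length (b * cs.simple i) < cs.length b) {y : W}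
    (hy : y ∈ P cs X) : cs.length (b * y) + cs.length y = cs.length b := by
  obtain ⟨ω, h1, h2, rfl⟩ := exists_reduced_word hy
  clear hy
  induction ω with
  | nil => simp
  | cons i ω ih =>
    have h3 : cs.IsReduced ω := by
      have := h1.drop 1
      simpa using this
    have h4 := ih h3 (fun j hj => h2 j (by simp [hj]))
    rw [h1.eq, cs.wordProd_cons, List.length_cons]
    rw [h3.eq] at h4
    -- `b⁻¹ = y'⁻¹ ...`; exchange for `s i * b⁻¹`
    set y' := cs.wordProd ω with hy'
    have h5 : cs.length (cs.simple i * (y' * (b * y')⁻¹)) < cs.length (y' * (b * y')⁻¹) := by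
      have e1 : y' * (b * y')⁻¹ = b⁻¹ := by group
      rw [e1, cs.length_inv, ← cs.length_inv, mul_inv_rev, inv_inv, cs.inv_simple]
      exact hb i (h2 i (by simp))
    rcases exchange_mul cs h5 with ⟨x', h6, h7, _⟩ | ⟨z, h6, h7⟩
    · exfalso
      rw [← mul_assoc] at h7
      have h8 := mul_right_cancel h7
      rw [hy', ← cs.wordProd_cons] at h8
      have h9 := h1.eq
      rw [h8, List.length_cons] at h9
      rw [h3.eq] at h6
      omega
    · have e2 : z⁻¹ = b * (cs.simple i * y') := by
        have e3 : z = y'⁻¹ * (cs.simple i * (y' * (b * y')⁻¹)) := by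
          rw [h7, inv_mul_cancel_left]
        rw [e3]
        simp only [mul_inv_rev, inv_inv, cs.inv_simple]
        group
      have h8 : cs.length z⁻¹ < cs.length (b * y') := by
        rw [cs.length_inv, ← cs.length_inv (b * y')]
        exact h6
      rw [e2] at h8
      have h9 : cs.length (b * y') ≤ cs.length (b * (cs.simple i * y')) + 1 := by
        have h10 := cs.length_mul_le (b * (cs.simple i * y')) (y'⁻¹ * cs.simple i * y')
        have e4 : b * (cs.simple i * y') * (y'⁻¹ * cs.simple i * y') = b * y' := by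
          have : b * (cs.simple i * y') * (y'⁻¹ * cs.simple i * y') = b * (cs.simple i * cs.simple i) * y' := by group
          rw [this, cs.simple_mul_simple_self, mul_one]
        have h11 : cs.length b ≤ cs.length (b * (cs.simple i * y')) + cs.length (cs.simple i * y') := by
          have := cs.length_mul_le (b * (cs.simple i * y')) (cs.simple i * y')⁻¹
          rwa [mul_inv_cancel_right, cs.length_inv] at this
        have h12 : cs.length (cs.simple i * y') = ω.length + 1 := by
          rw [hy', ← cs.wordProd_cons, h1.eq, List.length_cons]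
        omega
      omega

theorem descents_swap {X : Set B} {b : W} (hbX : b ∈ P cs X) (hb : ∀ i ∈ X, cs.length (b * cs.simple i) < cs.length b) :
    ∀ i ∈ X, cs.length (cs.simple i * b) < cs.length b := by
  intro i hi
  have h := descents_R hb (y := b⁻¹ * cs.simple i) (mul_mem (inv_mem hbX) (simple_mem_P hi))
  rw [mul_inv_cancel_left, cs.length_simple] at h
  have h2 : cs.length (b⁻¹ * cs.simple i) = cs.length (cs.simple i * b) := by
    rw [← cs.length_inv, mul_inv_rev, inv_inv, cs.inv_simple]
  omega

theorem descents_swap' {X : Set B} {b : W} (hbX : b ∈ P cs X) (hb : ∀ i ∈ X, cs.length (cs.simple i * b) < cs.length b) :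
    ∀ i ∈ X, cs.length (b * cs.simple i) < cs.length b := by
  intro i hi
  have h := descents_swap (X := X) (b := b⁻¹) (inv_mem hbX) (fun j hj => by
    rw [cs.length_inv, ← cs.length_inv, mul_inv_rev, inv_inv, cs.inv_simple]
    exact hb j hj) i hi
  rw [cs.length_inv, ← cs.length_inv, mul_inv_rev, inv_inv, cs.inv_simple] at h
  exact h

end Q27.Cox
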